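import Pool.Agent.Helper4.AE.St

set_option autoImplicit false

namespace Pool.Agent.Helper82.AE

open Pool.Agent.Helper4.AE
open Finset

theorem mem_dil {m : ℕ} (u : (ZMod m)ˣ) (A : Finset (ZMod m)) (x : ZMod m) :
    x ∈ dil u A ↔ ((u⁻¹ : (ZMod m)ˣ) : ZMod m) * x ∈ A := by
  unfold dil
  rw [Finset.mem_image]
  constructor
  · rintro ⟨a, ha, rfl⟩
    rwa [Units.inv_mul_cancel_left]
  · intro h
    exact ⟨_, h, Units.mul_inv_cancel_left u x⟩

theorem sg_dil {m : ℕ} (u : (ZMod m)ˣ) (A : Finset (ZMod m)) (n : ZMod m) :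
    sg (dil u A) n = sg A (((u⁻¹ : (ZMod m)ˣ) : ZMod m) * n) := by
  unfold sg
  refine Finset.card_nbij' (fun p => (((u⁻¹ : (ZMod m)ˣ) : ZMod m) * p.1, ((u⁻¹ : (ZMod m)ˣ) : ZMod m) * p.2))
    (fun p => ((u : ZMod m) * p.1, (u : ZMod m) * p.2)) ?_ ?_ ?_ ?_
  · rintro ⟨a, b⟩ hp
    rw [Finset.mem_coe, Finset.mem_filter, Finset.mem_product, mem_dil, mem_dil] at hp
    rw [Finset.mem_coe, Finset.mem_filter, Finset.mem_product]
    refine ⟨hp.1, ?_⟩
    show ((u⁻¹ : (ZMod m)ˣ) : ZMod m) * a + ((u⁻¹ : (ZMod m)ˣ) : ZMod m) * b = ((u⁻¹ : (ZMod m)ˣ) : ZMod m) * n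
    rw [← mul_add]
    exact congrArg _ hp.2
  · rintro ⟨a, b⟩ hp
    rw [Finset.mem_coe, Finset.mem_filter, Finset.mem_product] at hp
    rw [Finset.mem_coe, Finset.mem_filter, Finset.mem_product, mem_dil, mem_dil]
    refine ⟨?_, ?_⟩
    · show ((u⁻¹ : (ZMod m)ˣ) : ZMod m) * ((u : ZMod m) * a) ∈ A ∧ ((u⁻¹ : (ZMod m)ˣ) : ZMod m) * ((u : ZMod m) * b) ∈ A
      rw [Units.inv_mul_cancel_left, Units.inv_mul_cancel_left]
      exact hp.1
    · show (u : ZMod m) * a + (u : ZMod m) * b = n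
      rw [← mul_add]
      have h2 : a + b = ((u⁻¹ : (ZMod m)ˣ) : ZMod m) * n := hp.2
      rw [h2, Units.mul_inv_cancel_left]
  · rintro ⟨a, b⟩ _
    show ((u : ZMod m) * (((u⁻¹ : (ZMod m)ˣ) : ZMod m) * a), (u : ZMod m) * (((u⁻¹ : (ZMod m)ˣ) : ZMod m) * b)) = (a, b)
    rw [Units.mul_inv_cancel_left, Units.mul_inv_cancel_left]
  · rintro ⟨a, b⟩ _
    show (((u⁻¹ : (ZMod m)ˣ) : ZMod m) * ((u : ZMod m) * a), ((u⁻¹ : (ZMod m)ˣ) : ZMod m) * ((u : ZMod m) * b)) = (a, b)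
    rw [Units.inv_mul_cancel_left, Units.inv_mul_cancel_left]

theorem bs_dil {m : ℕ} (r : ℕ) (u : (ZMod m)ˣ) (A : Finset (ZMod m)) (h : Bs r A) : Bs r (dil u A) := by
  intro n
  rw [sg_dil]
  exact h _

theorem dil_inv {m : ℕ} (u : (ZMod m)ˣ) (A : Finset (ZMod m)) : dil u⁻¹ (dil u A) = A := by
  ext x
  rw [mem_dil, mem_dil, inv_inv, Units.inv_mul_cancel_left]

theorem dil_inv' {m : ℕ} (u : (ZMod m)ˣ) (A : Finset (ZMod m)) : dil u (dil u⁻¹ A) = A := by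
  ext x
  rw [mem_dil, mem_dil, inv_inv, Units.mul_inv_cancel_left]

theorem mem_fam {m : ℕ} [NeZero m] (A : Finset (ZMod m)) : A ∈ Fam m ↔ Bs (Rz m) A := by
  classical
  unfold Fam
  rw [Finset.mem_filter]
  exact ⟨fun h => h.2, fun h => ⟨Finset.mem_univ _, h⟩⟩

theorem hINV : StINV := by
  classical
  intro m _ P
  refine ⟨fun r u A h => bs_dil r u A h, ?_⟩
  have h1 : ∀ A : Finset (ZMod m), ((Finset.univ : Finset (ZMod m)ˣ).filter fun u => P (dil u A)).card =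
      ∑ u : (ZMod m)ˣ, if P (dil u A) then 1 else 0 := fun A => Finset.card_filter _ _
  have h2 : ((Fam m).filter P).card = ∑ A ∈ Fam m, if P A then 1 else 0 := Finset.card_filter _ _
  have h3 : ∀ u : (ZMod m)ˣ, ∑ A ∈ Fam m, (if P (dil u A) then 1 else 0) = ∑ A ∈ Fam m, if P A then 1 else 0 := by
    intro u
    refine Finset.sum_nbij' (fun A => dil u A) (fun A => dil u⁻¹ A) ?_ ?_ ?_ ?_ ?_
    · intro A hA
      exact (mem_fam _).2 (bs_dil _ u A ((mem_fam _).1 hA))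
    · intro A hA
      exact (mem_fam _).2 (bs_dil _ u⁻¹ A ((mem_fam _).1 hA))
    · intro A _
      exact dil_inv u A
    · intro A _
      exact dil_inv' u A
    · intro A _
      rfl
  have h4 : ∑ A ∈ Fam m, ((Finset.univ : Finset (ZMod m)ˣ).filter fun u => P (dil u A)).card =
      Nat.totient m * ((Fam m).filter P).card := by
    rw [Finset.sum_congr rfl (fun A _ => h1 A), Finset.sum_comm, Finset.sum_congr rfl (fun u _ => h3 u), ← h2,
      Finset.sum_const, Finset.card_univ, ZMod.card_units_eq_totient, smul_eq_mul]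
  convert h4

end Pool.Agent.Helper82.AE
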